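import Pool.Agent.H.MP_eb9c50_an.Defs

set_option autoImplicit false

namespace Pool.Agent.H.MP_eb9c50_an

open MeasureTheory Complex

noncomputable def L (k : ℤ) : C(UnitAddCircle, ℂ) →L[ℂ] ℂ :=
  LinearMap.mkContinuous
    { toFun := fun f => fourierCoeff f k
      map_add' := fun f g => by
        rw [ContinuousMap.coe_add, fourierCoeff.add (intg f) (intg g), Pi.add_apply]
      map_smul' := fun c f => by rw [ContinuousMap.coe_smul, fourierCoeff.const_smul]; rfl } 1
    fun f => by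
      have := norm_integral_le_of_norm_le_const (μ := AddCircle.haarAddCircle)
        (f := fun t : UnitAddCircle => fourier (-k) t • f t) (C := ‖f‖) (.of_forall fun t => by
          rw [norm_smul, fourier_apply, Circle.norm_coe, one_mul]; exact f.norm_coe_le_norm t)
      simpa [fourierCoeff] using this

theorem L_apply (k : ℤ) (f : C(UnitAddCircle, ℂ)) : L k f = fourierCoeff f k := rfl

theorem uniq {f : C(UnitAddCircle, ℂ)} (h : ∀ k, L k f = 0) : f = 0 := by
  have e : fourierCoeff f = 0 := funext h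
  have := hasSum_fourier_series_of_summable (f := f) (by rw [e]; exact summable_zero)
  have e2 : (fun i => fourierCoeff f i • (fourier i : C(UnitAddCircle, ℂ))) = fun _ => 0 := by
    funext i; rw [e]; ext t; simp
  rw [e2] at this
  exact this.unique hasSum_zero

noncomputable def tr (a : UnitAddCircle) (f : C(UnitAddCircle, ℂ)) : C(UnitAddCircle, ℂ) :=
  f.comp ⟨fun t => t - a, by fun_prop⟩

theorem L_tr (k : ℤ) (a : UnitAddCircle) (f : C(UnitAddCircle, ℂ)) :
    L k (tr a f) = fourier (-k) a * L k f := by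
  simp only [L_apply, fourierCoeff]
  rw [← integral_add_right_eq_self _ a, ← integral_const_mul]
  congr 1
  funext t
  simp only [tr, ContinuousMap.comp_apply, ContinuousMap.coe_mk, add_sub_cancel_right, smul_eq_mul,
    fourier_apply, smul_add, AddCircle.toCircle_add, Circle.coe_mul]
  ring

theorem L_mul (k m : ℤ) (f : C(UnitAddCircle, ℂ)) : L k (fourier m * f) = L (k - m) f := by
  simp only [L_apply, fourierCoeff]
  congr 1
  funext t
  rw [show -(k - m) = -k + m by ring, fourier_add]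
  simp [mul_assoc]

theorem L_fourier (k m : ℤ) : L k (fourier m) = if k = m then 1 else 0 := by
  rw [L_apply, fourierCoeff_fourier, Pi.single_apply]

theorem geo {m : ℕ} (hm : 0 < m) {k : ℤ} (hk : ¬ (m : ℤ) ∣ k) :
    ∑ j ∈ Finset.range m, fourier (-k) (((j / m : ℝ)) : UnitAddCircle) = 0 := by
  have m0 : (m : ℂ) ≠ 0 := by exact_mod_cast hm.ne'
  have e : ∀ j : ℕ, fourier (-k) (((j / m : ℝ)) : UnitAddCircle) =
      cexp (2 * Real.pi * I * (-k) / m) ^ j := by
    intro j
    rw [fourier_coe_apply, ← exp_nat_mul]; congr 1; push_cast; ring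
  simp only [e]
  rw [geom_sum_eq, ← exp_nat_mul]
  · rw [show (m : ℂ) * (2 * Real.pi * I * (-k) / m) = (-k : ℤ) * (2 * Real.pi * I) by
      push_cast; field_simp, exp_int_mul_two_pi_mul_I]
    simp
  · intro h
    obtain ⟨n, hn⟩ := exp_eq_one_iff.1 h
    have p0 : (Real.pi : ℂ) ≠ 0 := by exact_mod_cast Real.pi_ne_zero
    field_simp at hn
    have : -k = m * n := by exact_mod_cast hn
    exact hk ⟨-n, by linarith⟩

theorem auto {m : ℕ} (hm : 0 < m) {E : Set ℤ} (hE : ∀ k ∈ E, (m : ℤ) ∣ k → k = 0) :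
    AutoCont E := by
  intro Φ hΦ
  have m0 : (m : ℂ) ≠ 0 := by exact_mod_cast hm.ne'
  have ht : ∀ a (f : CE E), tr a f.1 ∈ CE E := fun a f k hk => by
    rw [← L_apply, L_tr, L_apply, f.2 k hk, mul_zero]
  have key : ∀ f : CE E, ∑ j ∈ Finset.range m, tr ((j / m : ℝ) : UnitAddCircle) f.1 =
      (m * L 0 f.1) • fourier 0 := by
    intro f
    refine sub_eq_zero.1 (uniq fun k => ?_)
    rw [map_sub, map_sum, map_smul, L_fourier]
    simp only [L_tr]
    rw [← Finset.sum_mul]
    by_cases c : k = 0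
    · subst c; simp
    · rw [if_neg c, smul_zero, sub_zero]
      by_cases d : k ∈ E
      · rw [geo hm fun h => c (hE k d h), zero_mul]
      · rw [L_apply, f.2 k d, mul_zero]
  have key2 : ∀ f : CE E, Φ (∑ j ∈ Finset.range m, ⟨_, ht ((j / m : ℝ) : UnitAddCircle) f⟩) =
      m * Φ f := by
    intro f
    rw [map_sum, Finset.sum_congr rfl fun j _ => hΦ _ f ⟨_, ht _ f⟩ fun _ => rfl]
    simp
  by_cases c : (0 : ℤ) ∈ E
  · have h1 : (fourier 0 : C(UnitAddCircle, ℂ)) ∈ CE E := fun k hk => by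
      rw [← L_apply, L_fourier, if_neg fun e : k = 0 => hk (e ▸ c)]
    have : (Φ : CE E → ℂ) = fun f => L 0 f.1 * Φ ⟨_, h1⟩ := by
      funext f
      have h2 := key2 f
      rw [show (∑ j ∈ Finset.range m, (⟨_, ht ((j / m : ℝ) : UnitAddCircle) f⟩ : CE E)) =
        (m * L 0 f.1) • ⟨_, h1⟩ from Subtype.ext (by simpa using key f), map_smul, smul_eq_mul,
        mul_assoc] at h2
      exact (mul_left_cancel₀ m0 h2).symm
    rw [this]; fun_prop
  · have : (Φ : CE E → ℂ) = fun _ => 0 := by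
      funext f
      have h2 := key2 f
      rw [show (∑ j ∈ Finset.range m, (⟨_, ht ((j / m : ℝ) : UnitAddCircle) f⟩ : CE E)) = 0 from
        Subtype.ext (by
          have := key f
          rw [L_apply, f.2 0 c, mul_zero, show (0 : ℂ) • (fourier 0 : C(UnitAddCircle, ℂ)) = 0 by
            ext t; simp] at this
          simpa using this), map_zero] at h2
      exact (mul_eq_zero.1 h2.symm).resolve_left m0
    rw [this]; fun_prop

noncomputable def RS (m r : ℤ) : ℕ → C(UnitAddCircle, ℂ) × C(UnitAddCircle, ℂ)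
  | 0 => (fourier r, fourier r)
  | n + 1 => ((RS m r n).1 + fourier (m * 2 ^ n) * (RS m r n).2,
      (RS m r n).1 - fourier (m * 2 ^ n) * (RS m r n).2)

theorem RS_norm (m r : ℤ) (n : ℕ) (t : UnitAddCircle) :
    ‖(RS m r n).1 t‖ ^ 2 + ‖(RS m r n).2 t‖ ^ 2 = 2 ^ (n + 1) := by
  induction n with
  | zero => simp [RS, fourier_apply]; norm_num
  | succ n ih =>
    simp only [RS, ContinuousMap.add_apply, ContinuousMap.sub_apply, ContinuousMap.mul_apply]
    have := parallelogram_law_with_norm ℂ ((RS m r n).1 t) (fourier (m * 2 ^ n) t * (RS m r n).2 t)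
    rw [norm_mul, fourier_apply, Circle.norm_coe, one_mul, ← fourier_apply] at this
    rw [pow_succ 2 (n + 1), ← ih]
    linarith

def D (m r : ℤ) (n : ℕ) (k : ℤ) : Prop := ∃ j : ℕ, j < 2 ^ n ∧ k = r + m * j

theorem RS_coeff {m : ℤ} (hm : m ≠ 0) (r : ℤ) (n : ℕ) : ∀ k,
    (D m r n k → ‖L k (RS m r n).1‖ = 1 ∧ ‖L k (RS m r n).2‖ = 1) ∧
    (¬ D m r n k → L k (RS m r n).1 = 0 ∧ L k (RS m r n).2 = 0) := by
  induction n with
  | zero =>
    intro k
    simp only [RS, L_fourier, D, and_self]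
    constructor
    · rintro ⟨j, h1, h2⟩
      obtain rfl : j = 0 := by omega
      simp [h2]
    · intro h; exact if_neg fun e => h ⟨0, by norm_num, by simp [e]⟩
  | succ n ih =>
    intro k
    simp only [RS, map_add, map_sub, L_mul]
    constructor
    · rintro ⟨j, h1, h2⟩
      by_cases c : j < 2 ^ n
      · rw [((ih _).2 (by
          rintro ⟨i, g1, g2⟩
          have : (j : ℤ) = i + 2 ^ n := mul_left_cancel₀ hm (by linarith)
          have : j = i + 2 ^ n := by exact_mod_cast this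
          omega)).2]
        simpa using ((ih k).1 ⟨j, c, h2⟩).1
      · rw [((ih k).2 (by
          rintro ⟨i, g1, g2⟩
          have : (j : ℤ) = i := mul_left_cancel₀ hm (by linarith)
          omega)).1]
        simpa using ((ih _).1 ⟨j - 2 ^ n, by omega, by
          rw [Nat.cast_sub (not_lt.1 c)]; push_cast; linarith⟩).2
    · intro h
      rw [((ih k).2 fun ⟨j, g1, g2⟩ => h ⟨j, by omega, g2⟩).1,
        ((ih _).2 fun ⟨j, g1, g2⟩ => h ⟨j + 2 ^ n, by omega, by push_cast; linarith⟩).2]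
      simp

theorem ub {X : Type} [NormedAddCommGroup X] [NormedSpace ℂ X] [CompleteSpace X]
    (S : Submodule ℂ X) (hc : IsClosed (S : Set X)) (g : ℕ → X →L[ℂ] ℂ)
    (h : ∀ f ∈ S, ∃ C, ∀ n, ‖g n f‖ ≤ C) : ∃ C, 0 ≤ C ∧ ∀ n, ∀ f ∈ S, ‖g n f‖ ≤ C * ‖f‖ := by
  haveI := hc.completeSpace_coe
  obtain ⟨C, hC⟩ := banach_steinhaus (g := fun n => (g n).comp S.subtypeL) fun f => h f.1 f.2
  exact ⟨C, (norm_nonneg _).trans (hC 0), fun n f hf =>
    ((g n).comp S.subtypeL).le_of_opNorm_le (hC n) ⟨f, hf⟩⟩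

theorem not_sidon {m : ℤ} (hm : m ≠ 0) (r : ℤ) {E : Set ℤ} (hE : ∀ j : ℕ, r + m * j ∈ E) :
    ¬ Sidon E := by
  intro h
  have hc : IsClosed (CE E : Set C(UnitAddCircle, ℂ)) := by
    have : (CE E : Set C(UnitAddCircle, ℂ)) = ⋂ k, ⋂ (_ : k ∉ E), {f | L k f = 0} := by
      ext f; simp only [Set.mem_iInter]; rfl
    rw [this]
    exact isClosed_iInter fun k => isClosed_iInter fun _ =>
      isClosed_eq (L k).continuous continuous_const
  obtain ⟨g, hg⟩ : ∃ g : ℕ → C(UnitAddCircle, ℂ) →L[ℂ] ℂ, ∀ n f, g n f =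
      ∑ j ∈ Finset.range (2 ^ n), (starRingEnd ℂ) (L (r + m * j) (RS m r n).1) * L (r + m * j) f :=
    ⟨fun n => ∑ j ∈ Finset.range (2 ^ n),
      (starRingEnd ℂ) (L (r + m * j) (RS m r n).1) • L (r + m * j), fun n f => by simp⟩
  have hn : ∀ n, ∀ j ∈ Finset.range (2 ^ n), ‖L (r + m * j) (RS m r n).1‖ = 1 := fun n j hj =>
    ((RS_coeff hm r n _).1 ⟨j, Finset.mem_range.1 hj, rfl⟩).1
  obtain ⟨C, C0, hC⟩ := ub (CE E) hc g fun f hf => ⟨∑' k, ‖fourierCoeff f k‖, fun n => by
    rw [hg]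
    refine (norm_sum_le _ _).trans ?_
    rw [Finset.sum_congr rfl fun j hj => by rw [norm_mul, RCLike.norm_conj, hn n j hj, one_mul],
      ← Finset.sum_image (g := fun j : ℕ => r + m * j) (f := fun k => ‖L k f‖)
        fun i _ j _ e => by
          have : (i : ℤ) = j := mul_left_cancel₀ hm (by linarith)
          omega]
    exact (h f hf).sum_le_tsum _ fun _ _ => norm_nonneg _⟩
  obtain ⟨n, hn'⟩ := pow_unbounded_of_one_lt (2 * C ^ 2) (show (1 : ℝ) < 2 by norm_num)
  have hP : (RS m r n).1 ∈ CE E := fun k hk =>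
    ((RS_coeff hm r n k).2 fun ⟨j, _, e⟩ => hk (e ▸ hE j)).1
  have h1 : g n (RS m r n).1 = 2 ^ n := by
    rw [hg, Finset.sum_congr rfl fun j hj => by rw [conj_mul', hn n j hj]]
    simp
  have h2 : ‖(RS m r n).1‖ ≤ √(2 ^ (n + 1)) :=
    (ContinuousMap.norm_le _ (Real.sqrt_nonneg _)).2 fun t => Real.le_sqrt_of_sq_le (by
      rw [← RS_norm m r n t]; exact le_add_of_nonneg_right (sq_nonneg _))
  have h3 := hC n _ hP
  rw [h1] at h3
  have h4 : (2 : ℝ) ^ n ≤ C * √(2 ^ (n + 1)) := by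
    have : ‖(2 : ℂ) ^ n‖ = 2 ^ n := by simp
    rw [this] at h3
    exact h3.trans (mul_le_mul_of_nonneg_left h2 C0)
  have h5 := pow_le_pow_left₀ (by positivity) h4 2
  rw [mul_pow, Real.sq_sqrt (by positivity), pow_succ 2 n] at h5
  have : (0 : ℝ) < 2 ^ n := by positivity
  nlinarith

end Pool.Agent.H.MP_eb9c50_an
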