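import Mathlib

set_option autoImplicit false

namespace Pool.Agent.H.MP_eb9c50_an

open MeasureTheory

theorem intg (f : C(UnitAddCircle, ℂ)) : Integrable f AddCircle.haarAddCircle :=
  f.continuous.integrable_of_hasCompactSupport (HasCompactSupport.of_compactSpace _)

/-- `C_E(𝕋)`: the continuous functions whose Fourier coefficients vanish outside `E` -/
def CE (E : Set ℤ) : Submodule ℂ C(UnitAddCircle, ℂ) where
  carrier := {f | ∀ k, k ∉ E → fourierCoeff f k = 0}
  add_mem' := fun {f g} hf hg k hk => by
    rw [ContinuousMap.coe_add, fourierCoeff.add (intg f) (intg g), Pi.add_apply, hf k hk, hg k hk,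
      add_zero]
  zero_mem' := fun k _ => by simp [fourierCoeff]
  smul_mem' := fun c f hf k hk => by
    rw [ContinuousMap.coe_smul, fourierCoeff.const_smul, hf k hk, smul_zero]

/-- every translation-invariant linear form on `C_E(𝕋)` is continuous for the sup norm -/
def AutoCont (E : Set ℤ) : Prop :=
  ∀ Φ : CE E →ₗ[ℂ] ℂ,
    (∀ (a : UnitAddCircle) (f g : CE E), (∀ t, g.1 t = f.1 (t - a)) → Φ g = Φ f) → Continuous Φ

/-- Sidon sets -/
def Sidon (E : Set ℤ) : Prop := ∀ f ∈ CE E, Summable fun k : ℤ => ‖fourierCoeff f k‖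

end Pool.Agent.H.MP_eb9c50_an
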